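import Pool.Agent.H11.Quart

set_option autoImplicit false

namespace Pool.Agent.Results.MP_7399ce_lc.NPHard
open Pool.Agent.H11.PT

/-- a graph: number of vertices and edge list -/
abbrev Gr := ℕ × List (ℕ × ℕ)

/-- some cyclic ordering (the vertices are met in increasing order of the injective numbering `f`
when going once around the circle) has no alternating-edge obstruction -/
def Good {V : Type} (G : SimpleGraph V) : Prop :=
  ∃ f : V → ℕ, Function.Injective f ∧ ¬ ∃ a b c d, f a < f b ∧ f b < f c ∧ f c < f d ∧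
    G.Adj a c ∧ G.Adj b d ∧ ¬ G.Adj a b ∧ ¬ G.Adj b c ∧ ¬ G.Adj c d ∧ ¬ G.Adj d a

abbrev V := ℕ × El
def el (y : QI) (j i : ℕ) : El :=
  if i = 0 then (y.2.getD j ((0, 0, 0), (0, 0, 0), (0, 0, 0), (0, 0, 0))).1
  else if i = 1 then (y.2.getD j ((0, 0, 0), (0, 0, 0), (0, 0, 0), (0, 0, 0))).2.1
  else if i = 2 then (y.2.getD j ((0, 0, 0), (0, 0, 0), (0, 0, 0), (0, 0, 0))).2.2.1
  else (y.2.getD j ((0, 0, 0), (0, 0, 0), (0, 0, 0), (0, 0, 0))).2.2.2
abbrev A (y : QI) (x a : V) : Prop :=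
  (a.1 = 3 ∧ (x.1 = 0 ∨ x.1 = 2 ∨ (x.1 = 1 ∧ x.2 = a.2))) ∨
  (a.1 = 4 ∧ ((x.1 = 1 ∧ x.2 = el y a.2.1 a.2.2.1) ∨
    (x.1 = 2 ∧ (a.2.1 < x.2.1 ∨ (a.2.1 = x.2.1 ∧ a.2.2.1 / 2 = x.2.2.1)))))
abbrev Val (y : QI) (v : V) : Prop := v = (0, 0, 0, 0) ∨ ((v.1 = 1 ∨ v.1 = 3) ∧ v.2 ∈ y.1) ∨
  (v.2.1 < y.2.length ∧ v.2.2.2 = 0 ∧ ((v.1 = 2 ∧ v.2.2.1 < 2) ∨ (v.1 = 4 ∧ v.2.2.1 < 4)))
def vs (y : QI) : List V := (0, 0, 0, 0) :: ([1, 3] ×ˢ y.1 ++
  ([2] ×ˢ List.range y.2.length ×ˢ List.range 2 ×ˢ [0] ++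
    [4] ×ˢ List.range y.2.length ×ˢ List.range 4 ×ˢ [0]))
abbrev red (y : QI) : Gr := ((vs y).length, mkE (vs y) fun v w => decide (A y v w))

theorem red_pt : PT red := by
  have h3 : PT vs := by unfold vs; fun_prop
  exact h3.length.pair (PT.mkE (adj := fun y v w => decide (A y v w)) h3 (by unfold A el; fun_prop))

variable {y : QI}

theorem mem_vs (v : V) : v ∈ vs y ↔ Val y v := by
  obtain ⟨a, b, c, d⟩ := v
  simp only [vs, List.mem_cons, List.mem_append, List.mem_product, List.mem_range, Val,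
    List.not_mem_nil, or_false]
  tauto

theorem nd (h : QVal y) : (vs y).Nodup := by
  refine List.nodup_cons.2 ⟨by simp, List.nodup_append.2 ⟨List.Nodup.product (by simp) h.1,
    List.nodup_append.2 ⟨(List.nodup_singleton _).product (List.nodup_range.product
      (List.nodup_range.product (by simp))), (List.nodup_singleton _).product (List.nodup_range.product
      (List.nodup_range.product (by simp))), ?_⟩, ?_⟩⟩
  · rintro ⟨a, _⟩ ha ⟨b, _⟩ hb e
    simp only [List.mem_product, List.mem_singleton, Prod.mk.injEq] at ha hb e; omega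
  · rintro ⟨a, _⟩ ha ⟨b, _⟩ hb e
    simp only [List.mem_product, List.mem_cons, List.mem_append, Prod.mk.injEq, List.not_mem_nil,
      or_false] at ha hb e; omega

theorem kinds {x a : V} (h : A y x a) : x.1 ≤ 2 ∧ 3 ≤ a.1 := by
  unfold A at h; omega

theorem el_spec (h : QVal y) {j : ℕ} (hj : j < y.2.length) :
    (∀ i, el y j i ∈ y.1) ∧ ∀ i < 4, ∀ i' < 4, el y j i = el y j i' → i = i' := by
  obtain ⟨a, b⟩ := h.2 _ (List.getElem_mem hj)
  simp only [el, List.getD_eq_getElem _ _ hj]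
  simp only [List.forall_mem_cons] at a
  refine ⟨fun i => by split_ifs <;> tauto, fun i hi i' hi' => ?_⟩
  simp only [List.nodup_cons, List.mem_cons, not_or] at b
  interval_cases i <;> interval_cases i' <;> simp <;> tauto

theorem graph (h : QVal y) : ∃ p : Fin (red y).1 → V, Function.Injective p ∧
    (∀ v, Val y v ↔ ∃ i, p i = v) ∧
      ∀ i j, (gr (red y).1 (red y).2).Adj i j ↔ A y (p i) (p j) ∨ A y (p j) (p i) := by
  obtain ⟨p, h1, h2, -, h3⟩ := mkE_spec (vs y) (nd h) fun v w => decide (A y v w)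
  refine ⟨p, h1, fun v => (mem_vs v).symm.trans (h2 v), fun i j => (h3 i j).trans ?_⟩
  simp only [decide_eq_true_eq, and_iff_right_iff_imp]
  rintro (a | a) e <;> have := kinds a <;> rw [e] at this <;> omega

theorem bip (h : QVal y) : (gr (red y).1 (red y).2).Colorable 2 := by
  obtain ⟨p, -, -, h3⟩ := graph h
  refine ⟨SimpleGraph.Coloring.mk (fun i => if (p i).1 ≤ 2 then 0 else 1) fun {i j} a => ?_⟩
  rcases (h3 i j).1 a with a | a <;> have := kinds a <;> split_ifs <;> first | omega | simp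

theorem nc_cases {u w x z : ℕ} (h : ¬ NC u w x z) (a : u ≠ x) (b : u ≠ z) (c : w ≠ x) (d : w ≠ z) :
    (u < x ∧ x < w ∧ w < z) ∨ (u < z ∧ z < w ∧ w < x) ∨ (w < x ∧ x < u ∧ u < z) ∨
    (w < z ∧ z < u ∧ u < x) ∨ (x < u ∧ u < z ∧ z < w) ∨ (x < w ∧ w < z ∧ z < u) ∨
    (z < u ∧ u < x ∧ x < w) ∨ (z < w ∧ w < x ∧ x < u) := by
  unfold NC In at h; omega

theorem good_iff {V : Type} (G : SimpleGraph V) : Good G ↔ ∃ f : V → ℕ, Function.Injective f ∧
    ∀ u w x z, G.Adj u w → G.Adj x z → u ≠ x → u ≠ z → w ≠ x → w ≠ z → ¬ G.Adj u x → ¬ G.Adj u z →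
      ¬ G.Adj w x → ¬ G.Adj w z → NC (f u) (f w) (f x) (f z) := by
  refine exists_congr fun f => and_congr_right fun hf => ⟨fun h u w x z a b n1 n2 n3 n4 c d e g => ?_, ?_⟩
  · by_contra hn
    have s : ∀ {a b}, ¬ G.Adj a b → ¬ G.Adj b a := fun h h' => h h'.symm
    rcases nc_cases hn (hf.ne n1) (hf.ne n2) (hf.ne n3) (hf.ne n4) with
      k | k | k | k | k | k | k | k
    · exact h ⟨_, _, _, _, k.1, k.2.1, k.2.2, a, b, c, s e, g, s d⟩
    · exact h ⟨_, _, _, _, k.1, k.2.1, k.2.2, a, b.symm, d, s g, e, s c⟩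
    · exact h ⟨_, _, _, _, k.1, k.2.1, k.2.2, a.symm, b, e, s c, d, s g⟩
    · exact h ⟨_, _, _, _, k.1, k.2.1, k.2.2, a.symm, b.symm, g, s d, c, s e⟩
    · exact h ⟨_, _, _, _, k.1, k.2.1, k.2.2, b, a, s c, d, s g, e⟩
    · exact h ⟨_, _, _, _, k.1, k.2.1, k.2.2, b, a.symm, s e, g, s d, c⟩
    · exact h ⟨_, _, _, _, k.1, k.2.1, k.2.2, b.symm, a, s d, c, s e, g⟩
    · exact h ⟨_, _, _, _, k.1, k.2.1, k.2.2, b.symm, a.symm, s g, e, s c, d⟩
  · rintro h ⟨a, b, c, d, k1, k2, k3, e1, e2, e3, e4, e5, e6⟩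
    have n : ∀ {a b}, f a < f b → a ≠ b := fun h e => by rw [e] at h; omega
    have := h a c b d e1 e2 (n k1) (n (by omega)) (n k2).symm (n k3) e3 (fun h => e6 h.symm)
      (fun h => e4 h.symm) e5
    unfold NC In at this; omega

theorem sound (h : QVal y) (hg : Good (gr (red y).1 (red y).2)) : QUART y := by
  classical
  obtain ⟨p, h1, h2, h3⟩ := graph h
  obtain ⟨f, f1, f2⟩ := (good_iff _).1 hg
  obtain ⟨R, hR⟩ : ∃ R : V → ℕ, ∀ i, R (p i) = f i :=
    ⟨Function.extend p f fun _ => 0, fun i => h1.extend_apply _ _ _⟩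
  have ne : ∀ v w, Val y v → Val y w → v ≠ w → R v ≠ R w := by
    intro v w hv hw n e
    obtain ⟨i, rfl⟩ := (h2 v).1 hv
    obtain ⟨j, rfl⟩ := (h2 w).1 hw
    rw [hR, hR] at e
    exact n (congrArg p (f1 e))
  have k : ∀ x a x' a', Val y x → Val y a → Val y x' → Val y a' → A y x a → A y x' a' → ¬ A y x a' →
      ¬ A y x' a → NC (R x) (R a) (R x') (R a') := by
    intro x a x' a' v1 v2 v3 v4 e1 e2 e3 e4
    obtain ⟨i, rfl⟩ := (h2 _).1 v1
    obtain ⟨j, rfl⟩ := (h2 _).1 v2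
    obtain ⟨i', rfl⟩ := (h2 _).1 v3
    obtain ⟨j', rfl⟩ := (h2 _).1 v4
    have k1 := kinds e1
    have k2 := kinds e2
    simp only [hR]
    refine f2 _ _ _ _ ((h3 _ _).2 (Or.inl e1)) ((h3 _ _).2 (Or.inl e2)) (fun e => e3 (e ▸ e2))
      (fun e => by rw [e] at k1; omega) (fun e => by rw [e] at k1; omega) (fun e => e3 (e ▸ e1))
      ?_ ?_ ?_ ?_ <;> rw [h3] <;> rintro (e | e) <;>
      first | exact e3 e | exact e4 e | (have := kinds e; omega)
  clear h3 f2 hR f1 h1 h2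
  refine ⟨fun v => R (1, v), fun a ha b hb e => ?_, fun c hc => ?_⟩
  · by_contra n
    exact ne (1, a) (1, b) (by simp [Val, ha]) (by simp [Val, hb]) (by simpa using n) e
  obtain ⟨j, hj, rfl⟩ := List.getElem_of_mem hc
  obtain ⟨m1, m2⟩ := el_spec h hj
  have va : ∀ i < 4, Val y (4, j, i, 0) := fun i hi => by simp [Val, hj, hi]
  have ve : ∀ i < 2, Val y (2, j, i, 0) := fun i hi => by simp [Val, hj, hi]
  have vb : ∀ i, Val y (1, el y j i) := fun i => by simp [Val, m1]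
  have vt : ∀ i, Val y (3, el y j i) := fun i => by simp [Val, m1]
  have vd : Val y (0, 0, 0, 0) := by simp [Val]
  have g : ∀ i < 4, ∀ i' < 4, i ≠ i' →
      NC (R (1, el y j i)) (R (4, j, i, 0)) (R (1, el y j i')) (R (0, 0, 0, 0)) ∧
      NC (R (1, el y j i)) (R (4, j, i, 0)) (R (4, j, i', 0)) (R (0, 0, 0, 0)) := by
    intro i hi i' hi' n
    have n1 : el y j i ≠ el y j i' := fun e => n (m2 _ hi _ hi' e)
    have a := k _ _ _ _ (vb i) (va i hi) (vb i') (va i' hi') (by simp [A]) (by simp [A])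
      (by simp [A, n1]) (by simp [A, n1.symm])
    have b := k _ _ _ _ (vb i) (va i hi) (vb i') (vt i') (by simp [A]) (by simp [A])
      (by simp [A, n1]) (by simp [A, n1.symm])
    have c := k _ _ _ _ (vb i) (va i hi) vd (vt i') (by simp [A]) (by simp [A])
      (by simp [A, n1]) (by simp [A])
    exact ⟨b.trans c.symm, a.symm.trans (b.trans c.symm)⟩
  have nb : ∀ i < 4, ∀ i' < 4, i ≠ i' → R (1, el y j i) ≠ R (1, el y j i') := fun i hi i' hi' n =>
    ne _ _ (vb i) (vb i') (by simpa using fun e => n (m2 _ hi _ hi' e))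
  have na : ∀ i < 4, ∀ i' < 4, i ≠ i' → R (4, j, i, 0) ≠ R (4, j, i', 0) := fun i hi i' hi' n =>
    ne _ _ (va i hi) (va i' hi') (by simpa using n)
  have nc : ∀ i, ∀ i' < 4, R (1, el y j i) ≠ R (4, j, i', 0) := fun i i' hi' =>
    ne _ _ (vb i) (va i' hi') (by simp)
  have g1 : ∀ i < 4, ∀ s < 4, ∀ t < 4, i ≠ s → i ≠ t →
      NC (R (4, j, s, 0)) (R (4, j, t, 0)) (R (1, el y j i)) (R (4, j, i, 0)) ∧
      NC (R (1, el y j s)) (R (1, el y j t)) (R (1, el y j i)) (R (4, j, i, 0)) :=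
    fun i hi s hs t ht n n' =>
    ⟨NC.symm' ((g i hi s hs n).2.trans (g i hi t ht n').2.symm) (nc _ _ hs) (nc _ _ ht)
      (na _ hi _ hs n) (na _ hi _ ht n'),
    NC.symm' ((g i hi s hs n).1.trans (g i hi t ht n').1.symm) (nb _ hi _ hs n) (nb _ hi _ ht n')
      (nc _ _ hi).symm (nc _ _ hi).symm⟩
  have g2 : ∀ i < 2, NC (R (4, j, 2, 0)) (R (4, j, 3, 0)) (R (2, j, 0, 0)) (R (4, j, i, 0)) := by
    intro i hi
    have a : ∀ s < 4, 2 ≤ s → NC (R (2, j, 0, 0)) (R (4, j, i, 0)) (R (2, j, 1, 0)) (R (4, j, s, 0)) :=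
      fun s hs h2 => k _ _ _ _ (ve 0 (by omega)) (va i (by omega)) (ve 1 (by omega)) (va s hs)
        (by simp [A]; omega) (by simp [A]; omega) (by simp [A]; omega) (by simp [A]; omega)
    exact NC.symm' ((a 2 (by omega) le_rfl).symm.trans (a 3 (by omega) (by omega)))
      (ne _ _ (ve 0 (by omega)) (va 2 (by omega)) (by simp))
      (ne _ _ (ve 0 (by omega)) (va 3 (by omega)) (by simp))
      (na _ (by omega) _ (by omega) (by omega)) (na _ (by omega) _ (by omega) (by omega))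
  have g3 : NC (R (4, j, 2, 0)) (R (4, j, 3, 0)) (R (1, el y j 0)) (R (1, el y j 1)) :=
    ((g1 0 (by omega) 2 (by omega) 3 (by omega) (by omega) (by omega)).1.trans
      (g2 0 (by omega)).symm).trans ((g2 1 (by omega)).trans
      (g1 1 (by omega) 2 (by omega) 3 (by omega) (by omega) (by omega)).1.symm)
  have g4 := ((g1 2 (by omega) 0 (by omega) 1 (by omega) (by omega) (by omega)).2.trans
    (g3.symm' (nc _ _ (by omega)).symm (nc _ _ (by omega)).symm (nc _ _ (by omega)).symm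
      (nc _ _ (by omega)).symm)).trans
    (g1 3 (by omega) 0 (by omega) 1 (by omega) (by omega) (by omega)).2.symm
  simp only [el, List.getD_eq_getElem _ _ hj, if_true, if_false, one_ne_zero, OfNat.ofNat_ne_zero,
    OfNat.ofNat_ne_one, Nat.reduceEqDiff] at g4
  exact g4

theorem lift {a b c d u w x z : ℕ} (h : NC a b c d ∧ a ≠ c ∧ a ≠ d ∧ b ≠ c ∧ b ≠ d)
    (e1 : a < c → u < x) (e2 : c < a → x < u) (e3 : a < d → u < z) (e4 : d < a → z < u)
    (e5 : b < c → w < x) (e6 : c < b → x < w) (e7 : b < d → w < z) (e8 : d < b → z < w) :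
    NC u w x z := by
  obtain ⟨h, n1, n2, n3, n4⟩ := h
  unfold NC In at *
  rcases n1.lt_or_gt with n1 | n1 <;> rcases n2.lt_or_gt with n2 | n2 <;>
  rcases n3.lt_or_gt with n3 | n3 <;> rcases n4.lt_or_gt with n4 | n4 <;>
  simp only [n1, n2, n3, n4, n1.not_gt, n2.not_gt, n3.not_gt, n4.not_gt, true_imp_iff,
    false_imp_iff, true_and, and_true, false_and, and_false, or_false, false_or, true_iff, iff_true,
    false_iff, iff_false, not_true, not_false_iff] at h e1 e2 e3 e4 e5 e6 e7 e8 <;> omega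

theorem l2 {p q r s a c : ℕ} (h : NC p q r s) (n1 : p ≠ r) (n2 : p ≠ s) (n3 : q ≠ r) (n4 : q ≠ s)
    (ha : a = p ∨ a = q) (hc : c = r ∨ c = s) : NC (2 * p) (2 * a + 1) (2 * r) (2 * c + 1) ∧
      2 * p ≠ 2 * r ∧ 2 * p ≠ 2 * c + 1 ∧ 2 * a + 1 ≠ 2 * r ∧ 2 * a + 1 ≠ 2 * c + 1 := by
  unfold NC In at *
  rcases ha with rfl | rfl <;> rcases hc with rfl | rfl <;> omega

theorem complete (h : QVal y) (hq : QUART y) : Good (gr (red y).1 (red y).2) := by
  classical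
  obtain ⟨p, h1, h2, h3⟩ := graph h
  obtain ⟨g, g1, g2⟩ := hq
  let R : V → ℕ := fun v => if v.1 = 0 then 0 else if v.1 = 2 then 2 * g (el y v.2.1 (2 * v.2.2.1))
    else if v.1 = 4 then 2 * g (el y v.2.1 v.2.2.1) + 1 else 2 * g v.2 + 1
  have hv : ∀ i, Val y (p i) := fun i => (h2 _).2 ⟨i, rfl⟩
  have k0 : ∀ x a x' a', Val y x → Val y a → Val y x' → Val y a' → A y x a → A y x' a' → ¬ A y x a' →
      x ≠ x' → x.1 = 1 → R x = R a ∧ R x ≠ R x' ∧ R x ≠ R a' := by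
    rintro ⟨_, v⟩ ⟨k, j, i, l⟩ ⟨k', w⟩ ⟨k'', u⟩ v1 v2 v3 v4 e1 e2 e3 n rfl
    have k2 := kinds e2
    have hv : v ∈ y.1 := by simpa [Val] using v1
    have t : ∀ w ∈ y.1, v ≠ w → 2 * g v + 1 ≠ 2 * g w + 1 := fun w hw n e =>
      n (g1 _ hv _ hw (by omega))
    refine ⟨?_, ?_, ?_⟩
    · simp only [A] at e1
      rcases e1 with ⟨rfl, e1⟩ | ⟨rfl, e1⟩ <;> simp at e1 <;> simp [R, e1]
    · dsimp only at k2
      obtain rfl | rfl | rfl : k' = 0 ∨ k' = 1 ∨ k' = 2 := by omega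
      · simp [R]
      · exact t w (by simpa [Val] using v3) (by simpa using n)
      · simp [R]; omega
    · rcases v4 with v4 | ⟨rfl | rfl, v4⟩ | ⟨v4, -, ⟨rfl, -⟩ | ⟨rfl, -⟩⟩
      · rw [v4] at k2; simp at k2
      · simp at k2
      · exact t u v4 (by simpa [A] using e3)
      · simp at k2
      · exact t _ ((el_spec h v4).1 _) (by simpa [A] using e3)
  have k1 : ∀ x a x' a', Val y x → Val y a → Val y x' → Val y a' → A y x a → A y x' a' → ¬ A y x a' →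
      ¬ A y x' a → NC (R x) (R a) (R x') (R a') ∧ R x ≠ R x' ∧ R x ≠ R a' ∧ R a ≠ R x' ∧ R a ≠ R a' := by
    intro x a x' a' v1 v2 v3 v4 e1 e2 e3 e4
    have n : x ≠ x' := fun e => e3 (e ▸ e2)
    by_cases c1 : x.1 = 1
    · have := k0 _ _ _ _ v1 v2 v3 v4 e1 e2 e3 n c1
      unfold NC In; omega
    by_cases c2 : x'.1 = 1
    · have := k0 _ _ _ _ v3 v4 v1 v2 e2 e1 e4 n.symm c2
      unfold NC In; omega
    obtain ⟨k, j, s, l⟩ := x
    obtain ⟨k', j', s', l'⟩ := x'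
    obtain ⟨m, i, t, o⟩ := a
    obtain ⟨m', i', t', o'⟩ := a'
    simp only [A, c1, c2, false_and, or_false, false_or] at e1 e2 e3 e4 c1 c2
    obtain ⟨rfl, rfl, rfl, rfl, rfl, rfl, rfl, b1, b2, b3⟩ : k = 2 ∧ k' = 2 ∧ m = 4 ∧ m' = 4 ∧ j = j' ∧
      i = j ∧ i' = j ∧ t / 2 = s ∧ t' / 2 = s' ∧ s ≠ s' := by omega
    simp only [Val, Prod.mk.injEq] at v1 v2 v3 v4
    have hj : i' < y.2.length := by omega
    obtain ⟨m1, m2⟩ := el_spec h hj
    have n : ∀ i < 4, ∀ j < 4, i ≠ j → g (el y i' i) ≠ g (el y i' j) := fun i hi j hj n e =>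
      n (m2 _ hi _ hj (g1 _ (m1 _) _ (m1 _) e))
    have c : NC (g (el y i' 0)) (g (el y i' 1)) (g (el y i' 2)) (g (el y i' 3)) := by
      simpa only [el, List.getD_eq_getElem _ _ hj, if_true, if_false, one_ne_zero,
        OfNat.ofNat_ne_zero, OfNat.ofNat_ne_one, Nat.reduceEqDiff] using g2 _ (List.getElem_mem hj)
    have n1 := n 0 (by omega) 2 (by omega) (by omega)
    have n2 := n 0 (by omega) 3 (by omega) (by omega)
    have n3 := n 1 (by omega) 2 (by omega) (by omega)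
    have n4 := n 1 (by omega) 3 (by omega) (by omega)
    obtain ⟨rfl, rfl, b4, b5⟩ | ⟨rfl, rfl, b4, b5⟩ : (s = 0 ∧ s' = 1 ∧ (t = 0 ∨ t = 1) ∧ (t' = 2 ∨ t' = 3)) ∨
      (s = 1 ∧ s' = 0 ∧ (t = 2 ∨ t = 3) ∧ (t' = 0 ∨ t' = 1)) := by omega
    · exact l2 c n1 n2 n3 n4 (by rcases b4 with rfl | rfl <;> simp) (by rcases b5 with rfl | rfl <;> simp)
    · exact l2 (c.symm' n1 n2 n3 n4) n1.symm n3.symm n2.symm n4.symm
        (by rcases b4 with rfl | rfl <;> simp) (by rcases b5 with rfl | rfl <;> simp)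
  obtain ⟨f, f1, f2⟩ := refine_inj (vs y) R
  simp only [mem_vs] at f1 f2
  have f3 : ∀ i j, R (p i) < R (p j) → f (p i) < f (p j) := fun i j => f2 _ (hv i) _ (hv j)
  refine (good_iff _).2 ⟨fun i => f (p i), fun i j e => h1 (f1 _ (hv i) _ (hv j) e),
    fun u w x z a b n1 n2 n3 n4 c d e e' => ?_⟩
  refine lift (a := R (p u)) (b := R (p w)) (c := R (p x)) (d := R (p z)) ?_ (f3 _ _) (f3 _ _) (f3 _ _)
    (f3 _ _) (f3 _ _) (f3 _ _) (f3 _ _) (f3 _ _)
  rw [h3] at a b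
  rw [h3, not_or] at c d e e'
  rcases a with a | a <;> rcases b with b | b
  · exact k1 _ _ _ _ (hv _) (hv _) (hv _) (hv _) a b d.1 e.2
  · obtain ⟨t, t1, t2, t3, t4⟩ := k1 _ _ _ _ (hv _) (hv _) (hv _) (hv _) a b c.1 e'.2
    exact ⟨t.symm, t2, t1, t4, t3⟩
  · obtain ⟨t, t1, t2, t3, t4⟩ := k1 _ _ _ _ (hv _) (hv _) (hv _) (hv _) a b e'.1 c.2
    exact ⟨or_comm.trans (t.trans or_comm), t3, t4, t1, t2⟩
  · obtain ⟨t, t1, t2, t3, t4⟩ := k1 _ _ _ _ (hv _) (hv _) (hv _) (hv _) a b e.1 d.2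
    exact ⟨or_comm.trans (t.symm.trans or_comm), t4, t3, t2, t1⟩

def adj (y : Gr) (a b : ℕ) : Bool := !(a == b) && (y.2.contains (a, b) || y.2.contains (b, a))

theorem adj_iff (y : Gr) (a b : Fin y.1) : (gr y.1 y.2).Adj a b ↔ adj y a b = true := by
  simp [gr, adj, SimpleGraph.fromRel_adj, Fin.ext_iff]

theorem inNP : InNP fun y : Gr => Good (gr y.1 y.2) := by
  refine PT.inNP_nats (V := fun y o => ((List.range y.1).all fun a => (List.range y.1).all fun b =>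
    a == b || !(o.getD a 0 == o.getD b 0)) && !((List.range y.1).any fun a => (List.range y.1).any fun b =>
    (List.range y.1).any fun c => (List.range y.1).any fun d => decide (o.getD a 0 < o.getD b 0) &&
    (decide (o.getD b 0 < o.getD c 0) && (decide (o.getD c 0 < o.getD d 0) && (adj y a c && (adj y b d &&
    (!adj y a b && (!adj y b c && (!adj y c d && !adj y d a))))))))) (by unfold adj; fun_prop)
    (fun y => y.1 + y.1 * y.1) (by fun_prop) (fun y o h => ?_) fun y ⟨f, f1, f2⟩ => ?_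
  · simp only [Bool.and_eq_true, List.all_eq_true, List.mem_range, Bool.or_eq_true, beq_iff_eq,
      Bool.not_eq_true', ← Bool.not_eq_true, List.any_eq_true,
      decide_eq_true_eq] at h
    refine ⟨fun i => o.getD i 0, fun i j e => Fin.ext ((h.1 i i.2 j j.2).resolve_right fun n => n e), ?_⟩
    rintro ⟨a, b, c, d, k⟩
    exact h.2 ⟨a, a.2, b, b.2, c, c.2, d, d.2, by simpa only [adj_iff] using k⟩
  · obtain ⟨o, o1, o2⟩ := small_num f
    refine ⟨o, o1, ?_⟩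
    simp only [Bool.and_eq_true, List.all_eq_true, List.mem_range, Bool.or_eq_true, beq_iff_eq,
      Bool.not_eq_true', ← Bool.not_eq_true, List.any_eq_true,
      decide_eq_true_eq]
    refine ⟨fun a ha b hb => or_iff_not_imp_left.2 fun n e => ?_, ?_⟩
    · have h1 := o2 ⟨a, ha⟩ ⟨b, hb⟩
      have h2 := o2 ⟨b, hb⟩ ⟨a, ha⟩
      have h3 := f1.ne (show (⟨a, ha⟩ : Fin y.1) ≠ ⟨b, hb⟩ by simpa using n)
      dsimp only at h1 h2
      omega
    · rintro ⟨a, ha, b, hb, c, hc, d, hd, k⟩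
      exact f2 ⟨⟨a, ha⟩, ⟨b, hb⟩, ⟨c, hc⟩, ⟨d, hd⟩, by simpa only [adj_iff, ← o2] using k⟩

theorem result :
    (∀ L : List Bool → Prop, InNP L → ∃ f : List Bool → Gr, PolyTime id bits f ∧
      ∀ x, (gr (f x).1 (f x).2).Colorable 2 ∧ (L x ↔ Good (gr (f x).1 (f x).2))) ∧
    ((∃ V : Gr → Bool, PolyTime bits (fun b => [b]) V ∧
      ∀ y, (gr y.1 y.2).Colorable 2 → (V y = true ↔ Good (gr y.1 y.2))) ↔ PeqNP) := by
  have h : HardFor InNP (fun y : Gr => (gr y.1 y.2).Colorable 2) fun y => Good (gr y.1 y.2) :=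
    hard_QUART.red red red_pt fun y hy => ⟨bip hy, complete hy, sound hy⟩
  exact ⟨h.unfold, promise_iff h inNP⟩

end Pool.Agent.Results.MP_7399ce_lc.NPHard
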